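import Pool.Agent.N869.GK.StmN

/-!
# Project GK (helper869), part N-CLS6 (helper163): the data of two curves are not conjugate
-/

set_option autoImplicit false
set_option linter.unusedVariables false

open scoped Classical

namespace Pool.Agent.N163.GK

open Finset
open Pool.Agent.N869.GK
open Pool.Agent.N869.GK.D
open Pool.Agent.N869.GK.N
open Pool.Agent.N869.GK.M (NC S_CJ6)

/-- cancelling a square -/
theorem canc {a s : ℤ} (hs : s ≠ 0) (h : IsSquare (a * s ^ 2)) : IsSquare a := by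
  obtain ⟨t, ht⟩ := h
  have h1 : s ^ 2 ∣ t ^ 2 := ⟨a, by rw [sq t, ← ht]; ring⟩
  have h2 : s ∣ t := (Int.pow_dvd_pow_iff (by norm_num)).1 h1
  obtain ⟨u, rfl⟩ := h2
  refine ⟨u, ?_⟩
  have h3 : s ^ 2 ≠ 0 := pow_ne_zero 2 hs
  apply mul_right_cancel₀ h3
  rw [ht]
  ring

theorem canc' {a c s : ℤ} (hs : s ≠ 0) (h : IsSquare c) (e : c = a * s ^ 2) : IsSquare a :=
  canc hs (e ▸ h)

/-- the order of the roots of the first curve -/
theorem fin3 {e e' : Fin 3 → ℤ} (hU : Unr e e') (t : Equiv.Perm (Fin 3))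
    (h01 : IsSquare ((e' 0 - e' 1) * (e (t 0) - e (t 1))))
    (h02 : IsSquare ((e' 0 - e' 2) * (e (t 0) - e (t 2))))
    (h12 : IsSquare ((e' 1 - e' 2) * (e (t 1) - e (t 2)))) : False := by
  have key : ∀ a b : Fin 3, a ≠ b → IsSquare ((e (t a) - e (t b)) * (e' a - e' b)) := by
    have k1 : ∀ a b : Fin 3, IsSquare ((e' a - e' b) * (e (t a) - e (t b))) →
        IsSquare ((e (t a) - e (t b)) * (e' a - e' b)) ∧
          IsSquare ((e (t b) - e (t a)) * (e' b - e' a)) := by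
      intro a b h
      constructor
      · rw [mul_comm]
        exact h
      · have e1 : (e (t b) - e (t a)) * (e' b - e' a) = (e' a - e' b) * (e (t a) - e (t b)) := by
          ring
        rw [e1]
        exact h
    intro a b hab
    fin_cases a <;> fin_cases b
    · exact absurd rfl hab
    · exact (k1 0 1 h01).1
    · exact (k1 0 2 h02).1
    · exact (k1 0 1 h01).2
    · exact absurd rfl hab
    · exact (k1 1 2 h12).1
    · exact (k1 0 2 h02).2
    · exact (k1 1 2 h12).2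
    · exact absurd rfl hab
  refine hU t.symm fun i j hij => ?_
  have h := key (t.symm i) (t.symm j) (fun h => hij.ne (t.symm.injective h))
  rwa [Equiv.apply_symm_apply, Equiv.apply_symm_apply] at h

theorem fin3' {e e' : Fin 3 → ℤ} (hU : Unr e e') (t : Equiv.Perm (Fin 3))
    (n0 : (e' 0 - e' 1) * (e (t 0) - e (t 1)) ≠ 0)
    (h1 : IsSquare ((e' 0 - e' 1) * (e (t 0) - e (t 1))))
    (h2 : IsSquare (((e' 0 - e' 1) * (e' 0 - e' 2)) * ((e (t 0) - e (t 1)) * (e (t 0) - e (t 2)))))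
    (h3 : IsSquare (((e' 1 - e' 0) * (e' 1 - e' 2)) *
      ((e (t 1) - e (t 0)) * (e (t 1) - e (t 2))))) : False := by
  refine fin3 hU t h1 ?_ ?_
  · refine canc' n0 (h2.mul h1) ?_
    ring
  · refine canc' n0 (h3.mul h1) ?_
    ring

theorem fin3'' {e e' : Fin 3 → ℤ} (hU : Unr e e') (hn : ∀ i j : Fin 3, i ≠ j → e i - e j ≠ 0)
    (hn' : e' 0 - e' 1 ≠ 0) (t : Equiv.Perm (Fin 3)) {i j k : Fin 3} (t0 : t 0 = i) (t1 : t 1 = j)
    (t2 : t 2 = k) (h1 : IsSquare ((e' 0 - e' 1) * (e i - e j)))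
    (h2 : IsSquare (((e' 0 - e' 1) * (e' 0 - e' 2)) * ((e i - e j) * (e i - e k))))
    (h3 : IsSquare (((e' 1 - e' 0) * (e' 1 - e' 2)) * ((e j - e i) * (e j - e k)))) : False := by
  subst t0 t1 t2
  refine fin3' hU t (mul_ne_zero hn' (hn _ _ fun h => ?_)) h1 h2 h3
  exact absurd (t.injective h) (by decide)

/-- **GK-CLS6.** -/
theorem t_CLS6 : Pool.Agent.N869.GK.N.S_CLS6 := by
  intro hGEN hCJ b r g hg e e' hC hC' D D' hD hD' hU
  by_contra hNC
  obtain ⟨g1, g2, g3, g4, g5⟩ := hGEN.2 b r g hg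
  have r0 : ∀ x, rep g x ≠ 0 := fun x => (g1 x).ne_zero
  -- classes of integers
  have add : ∀ (x y : Gr r) (n m : ℤ), IsSquare (n * rep g x) → IsSquare (m * rep g y) →
      IsSquare ((n * m) * rep g (x + y)) := by
    intro x y n m h h'
    refine canc' (mul_ne_zero (r0 x) (r0 y)) ((h.mul h').mul (g3 x y)) ?_
    ring
  have same : ∀ (x : Gr r) (n m : ℤ), IsSquare (n * rep g x) → IsSquare (m * rep g x) →
      IsSquare (n * m) := by
    intro x n m h h'
    refine canc' (r0 x) (h.mul h') ?_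
    ring
  -- the classes of the differences
  have cl : ∀ f : Fin 3 → ℤ, Crv b (f 0) (f 1) (f 2) →
      IsSquare ((f 0 - f 1) * rep g (ecl g (f 0 - f 1))) ∧
      IsSquare (((f 0 - f 1) * (f 0 - f 2)) * rep g (ecl g ((f 0 - f 1) * (f 0 - f 2)))) ∧
      IsSquare (((f 1 - f 0) * (f 1 - f 2)) * rep g (ecl g ((f 1 - f 0) * (f 1 - f 2)))) := by
    intro f hf
    have n12 : f 0 - f 1 ≠ 0 := sub_ne_zero.2 hf.h12
    have n13 : f 0 - f 2 ≠ 0 := sub_ne_zero.2 hf.h13
    have n23 : f 1 - f 2 ≠ 0 := sub_ne_zero.2 hf.h23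
    have n21 : f 1 - f 0 ≠ 0 := sub_ne_zero.2 hf.h12.symm
    have hb : ∀ p : ℕ, p.Prime → ((p : ℤ) ∣ f 0 - f 1 ∨ (p : ℤ) ∣ f 0 - f 2 ∨
        (p : ℤ) ∣ f 1 - f 2) → p = 2 ∨ p ∈ b := by
      intro p hp h
      by_cases h2 : p = 2
      · exact Or.inl h2
      · right
        refine (hf.mem p).2 ⟨hp, h2, ?_⟩
        rcases h with h | h | h
        · exact (h.mul_right _).mul_right _
        · exact (h.mul_left _).mul_right _
        · exact h.mul_left _
    refine ⟨g5 _ n12 fun p hp h => hb p hp (Or.inl h),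
      g5 _ (mul_ne_zero n12 n13) fun p hp h => ?_, g5 _ (mul_ne_zero n21 n23) fun p hp h => ?_⟩
    · have hp' : Prime (p : ℤ) := Nat.prime_iff_prime_int.1 hp
      rcases hp'.dvd_mul.1 h with h | h
      · exact hb p hp (Or.inl h)
      · exact hb p hp (Or.inr (Or.inl h))
    · have hp' : Prime (p : ℤ) := Nat.prime_iff_prime_int.1 hp
      rcases hp'.dvd_mul.1 h with h | h
      · exact hb p hp (Or.inl ((dvd_sub_comm).1 h))
      · exact hb p hp (Or.inr (Or.inr h))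
  have hm1 : IsSquare ((-1) * rep g (ecl g (-1))) := by
    refine g5 _ (by norm_num) fun p hp h => ?_
    exfalso
    have h1 : (p : ℤ) ∣ 1 := (dvd_neg.1 h)
    have h2 : p ∣ 1 := by exact_mod_cast h1
    exact hp.one_lt.ne' (Nat.dvd_one.1 h2)
  obtain ⟨l1, a1, b1⟩ := cl e hC
  obtain ⟨l2, a2, b2⟩ := cl e' hC'
  obtain ⟨d1, d2, d3, d4⟩ := hD
  obtain ⟨d1', d2', d3', d4'⟩ := hD'
  rw [← d1] at hm1
  rw [← d2] at l1
  rw [← d3] at a1
  rw [← d4] at b1
  rw [← d2'] at l2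
  rw [← d3'] at a2
  rw [← d4'] at b2
  have n12 : e 0 - e 1 ≠ 0 := sub_ne_zero.2 hC.h12
  have n13 : e 0 - e 2 ≠ 0 := sub_ne_zero.2 hC.h13
  have n23 : e 1 - e 2 ≠ 0 := sub_ne_zero.2 hC.h23
  have n12' : e' 0 - e' 1 ≠ 0 := sub_ne_zero.2 hC'.h12
  have ei : ∀ i j : Fin 3, i ≠ j → e i - e j ≠ 0 := by
    intro i j hij
    fin_cases i <;> fin_cases j
    · exact absurd rfl hij
    · exact n12
    · exact n13
    · exact sub_ne_zero.2 hC.h12.symm
    · exact absurd rfl hij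
    · exact n23
    · exact sub_ne_zero.2 hC.h13.symm
    · exact sub_ne_zero.2 hC.h23.symm
    · exact absurd rfl hij
  have ab1 := add _ _ _ _ (add _ _ _ _ a1 b1) hm1
  rcases hCJ r D D' (by rw [d1, d1']) hNC with ⟨h1, h2, h3⟩ | ⟨h1, h2, h3⟩ | ⟨h1, h2, h3⟩ |
    ⟨h1, h2, h3⟩ | ⟨h1, h2, h3⟩ | ⟨h1, h2, h3⟩ <;> rw [h1] at l2 <;> rw [h2] at a2 <;>
    rw [h3] at b2
  · exact fin3'' hU ei n12' 1 (i := 0) (j := 1) (k := 2) rfl rfl rfl (same _ _ _ l2 l1)
      (same _ _ _ a2 a1) (same _ _ _ b2 b1)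
  · refine fin3'' hU ei n12' (Equiv.swap 0 1) (i := 1) (j := 0) (k := 2) (by decide) (by decide)
      (by decide) (canc' one_ne_zero (same _ _ _ l2 (add _ _ _ _ l1 hm1)) (by ring))
      (same _ _ _ a2 b1) (same _ _ _ b2 a1)
  · refine fin3'' hU ei n12' (Equiv.swap 0 2) (i := 2) (j := 1) (k := 0) (by decide) (by decide)
      (by decide) (canc' n12 (same _ _ _ l2 (add _ _ _ _ l1 b1)) (by ring))
      (canc' n12 (same _ _ _ a2 ab1) (by ring))
      (canc' one_ne_zero (same _ _ _ b2 b1) (by ring))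
  · refine fin3'' hU ei n12' (Equiv.swap 1 2) (i := 0) (j := 2) (k := 1) (by decide) (by decide)
      (by decide) (canc' n12 (same _ _ _ l2 (add _ _ _ _ l1 a1)) (by ring))
      (canc' one_ne_zero (same _ _ _ a2 a1) (by ring))
      (canc' n12 (same _ _ _ b2 ab1) (by ring))
  · refine fin3'' hU ei n12' (finRotate 3) (i := 1) (j := 2) (k := 0) (by decide) (by decide)
      (by decide) (canc' n12 (same _ _ _ l2 (add _ _ _ _ (add _ _ _ _ l1 hm1) b1)) (by ring))
      (canc' one_ne_zero (same _ _ _ a2 b1) (by ring))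
      (canc' n12 (same _ _ _ b2 ab1) (by ring))
  · refine fin3'' hU ei n12' (finRotate 3).symm (i := 2) (j := 0) (k := 1) (by decide) (by decide)
      (by decide) (canc' n12 (same _ _ _ l2 (add _ _ _ _ (add _ _ _ _ l1 hm1) a1)) (by ring))
      (canc' n12 (same _ _ _ a2 ab1) (by ring))
      (canc' one_ne_zero (same _ _ _ b2 a1) (by ring))

end Pool.Agent.N163.GK
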